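import Pool.Agent.W91.BH.Stm

set_option autoImplicit false

open scoped ContDiff

/-! # A smooth bump function for the unit cube (S_PSI) -/

namespace Pool.Agent.W201.BH

open Pool.Agent.W91.BH

theorem psi : S_PSI := by
  intro n
  refine ⟨fun x => ∏ i, (Real.smoothTransition (x i + 1) * Real.smoothTransition (2 - x i)),
    ?_, ?_, ?_, ?_, ?_⟩
  · refine contDiff_prod (fun i _ => ?_)
    have hx : ContDiff ℝ ∞ (fun x : E n => x i) :=
      (EuclideanSpace.proj (𝕜 := ℝ) i : E n →L[ℝ] ℝ).contDiff
    exact (Real.smoothTransition.contDiff.comp (hx.add contDiff_const)).mul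
      (Real.smoothTransition.contDiff.comp (contDiff_const.sub hx))
  · intro x
    exact Finset.prod_nonneg (fun i _ => mul_nonneg (Real.smoothTransition.nonneg _)
      (Real.smoothTransition.nonneg _))
  · intro x
    refine Finset.prod_le_one (fun i _ => mul_nonneg (Real.smoothTransition.nonneg _)
      (Real.smoothTransition.nonneg _)) (fun i _ => ?_)
    exact mul_le_one₀ (Real.smoothTransition.le_one _) (Real.smoothTransition.nonneg _)
      (Real.smoothTransition.le_one _)
  · intro x hx
    refine Finset.prod_eq_one (fun i _ => ?_)
    have h1 := (hx i).1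
    have h2 := (hx i).2
    rw [Real.smoothTransition.one_of_one_le (by linarith),
      Real.smoothTransition.one_of_one_le (by linarith), one_mul]
  · intro x hx i
    have h := (Finset.prod_ne_zero_iff.mp hx) i (Finset.mem_univ i)
    constructor
    · by_contra hc
      push Not at hc
      exact h (by rw [Real.smoothTransition.zero_of_nonpos (by linarith), zero_mul])
    · by_contra hc
      push Not at hc
      exact h (by rw [Real.smoothTransition.zero_of_nonpos (x := 2 - x i) (by linarith), mul_zero])

end Pool.Agent.W201.BH
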